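import Pool.Agent.W614.Dg.Word

/-!
Iteration of the simulation.
-/

set_option autoImplicit false

namespace Pool.Agent.W614.Dg

open Pool.Agent.H584R2.Dg

/-- `i` rounds. -/
theorem rounds (i : ℕ) : ∀ {S : Type} [Finite S] (τ : Dgsm S) (_ : τ.NonErasing) (a : S)
    (w : ℕ → S) (_ : τ.IsLimit a w),
    ∃ (S' : Type) (_ : Finite S') (τ' : Dgsm S') (a' : S') (w' : ℕ → S') (h : S' → Option S)
      (P : ℕ → ℕ) (B d : ℕ), (1 ≤ i → Nat.card τ'.Q = 2) ∧ τ'.NonErasing ∧ τ'.IsLimit a' w' ∧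
      Slow (2 * i + 1) (len τ' a') ∧ Dec h w' w P ∧ ∀ k, P k + 1 ≤ B * (k + 1) ^ d := by
  induction i with
  | zero =>
    intro S hS τ hne a w hw
    obtain ⟨K, hK⟩ := exists_bound τ
    refine ⟨S, hS, τ, a, w, some, id, 1, 1, by simp, hne, hw, ?_, Dec.refl w, ?_⟩
    · apply slow_one (K := K)
      intro k
      exact len_succ_le hK _ _
    · intro k
      simp
  | succ i ih =>
    intro S hS τ hne a w hw
    obtain ⟨S1, hS1, τ1, a1, w1, h1, P1, B1, d1, -, hne1, hw1, hs1, hd1, hB1⟩ := ih τ hne a w hw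
    obtain ⟨S2, hS2, τ2, a2, w2, h2, P2, B2, hc2, hne2, hw2, hs2, hd2, hB2⟩ :=
      step τ1 hne1 a1 w1 hw1 (by omega) hs1
    refine ⟨S2, hS2, τ2, a2, w2, _, _, B2 * B1 ^ 3, d1 * 3, fun _ => hc2, hne2, hw2, hs2,
      hd1.comp hd2, ?_⟩
    intro k
    simp only [Function.comp]
    calc P2 (P1 k) + 1 ≤ B2 * (P1 k + 1) ^ 3 := hB2 _
      _ ≤ B2 * (B1 * (k + 1) ^ d1) ^ 3 :=
          Nat.mul_le_mul_left _ (Nat.pow_le_pow_left (hB1 k) 3)
      _ = B2 * B1 ^ 3 * (k + 1) ^ (d1 * 3) := by rw [mul_pow, ← pow_mul]; ring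

/-- Two states and growth `O(n ^ (1 + ε))`. -/
theorem reduction {ε : ℝ} (hε : 0 < ε) {S : Type} [Finite S] (τ : Dgsm S) (hne : τ.NonErasing)
    (a : S) (w : ℕ → S) (hw : τ.IsLimit a w) :
    ∃ (S' : Type) (_ : Finite S') (τ' : Dgsm S') (a' : S') (w' : ℕ → S') (h : S' → Option S)
      (P : ℕ → ℕ) (B d : ℕ), Nat.card τ'.Q = 2 ∧ τ'.NonErasing ∧ τ'.IsLimit a' w' ∧
      (∃ A : ℝ, ∀ n : ℕ, 1 ≤ n → ((τ'.map^[n] [a']).length : ℝ) ≤ A * (n : ℝ) ^ (1 + ε)) ∧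
      Dec h w' w P ∧ ∀ k, P k + 1 ≤ B * (k + 1) ^ d := by
  obtain ⟨i, hi⟩ : ∃ i : ℕ, 1 / ε < i := exists_nat_gt _
  have hi0 : (0 : ℝ) < i := lt_trans (by positivity) hi
  have hi1 : 1 ≤ i := by exact_mod_cast hi0
  obtain ⟨S', hS', τ', a', w', h, P, B, d, hc, hne', hw', hs', hd', hB'⟩ :=
    rounds i τ hne a w hw
  refine ⟨S', hS', τ', a', w', h, P, B, d, hc hi1, hne', hw', ?_, hd', hB'⟩
  obtain ⟨u, hout, hu, h0, ht⟩ := trace_of_isLimit hne' hw'
  have hlim := isLimit_of_trace hne' hout hu h0 ht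
  obtain ⟨A, hA0, hA⟩ := growth (e := 2 * i + 1) (by omega) (l := len τ' a')
    (G := fun n => (τ'.map^[n] [a']).length) hs'
    (by
      intro k k' hk
      exact qconf_mono hne' _ hk)
    (by simp)
    (by
      intro n
      have := hlim.2.2 n
      have e : len τ' a' = fun r => (qconf τ' (τ'.next τ'.init a', u) r).2.length := by
        funext r
        unfold len
        rw [hout]
        rfl
      rw [e]
      exact this)
  refine ⟨A, ?_⟩
  intro n hn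
  refine (hA n hn).trans ?_
  apply mul_le_mul_of_nonneg_left _ hA0.le
  apply Real.rpow_le_rpow_of_exponent_le (by exact_mod_cast hn)
  push_cast
  have e1 : (2 * (i : ℝ) + 1) / (2 * (i : ℝ) + 1 - 1) = 1 + 1 / (2 * i) := by
    field_simp
    ring
  rw [e1]
  have e2 : 1 / (2 * (i : ℝ)) ≤ ε := by
    rw [div_lt_iff₀ hε] at hi
    rw [div_le_iff₀ (by positivity)]
    nlinarith
  linarith

end Pool.Agent.W614.Dg
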