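import Pool.Agent.W614.Dg.Queue

/-!
Erasing letters of a generated word keeps the space, if the remaining letters have polynomially
bounded positions.
-/

set_option autoImplicit false

namespace Pool.Agent.W614.Dg

open Pool.Agent.H584R2.Dg

/-- `w` is in `GSPACE(s)`: it is generated in space `O(s(n))`. -/
def InSpace {S : Type} (s : ℕ → ℝ) (w : ℕ → S) : Prop :=
  ∃ (k : ℕ) (M : Machine k S) (C : ℝ), M.Generates w ∧
    ∀ n : ℕ, 1 ≤ n → M.SpaceLE n (C * s n)

/-- The letters of `w` are the letters of `h w'` at the positions `P 0 < P 1 < ...`, the other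
letters being erased. -/
structure Dec {S S' : Type} (h : S' → Option S) (w' : ℕ → S') (w : ℕ → S) (P : ℕ → ℕ) : Prop where
  mono : StrictMono P
  zero : P 0 = 0
  some : ∀ k, h (w' (P k)) = some (w k)
  none : ∀ k r, P k < r → r < P (k + 1) → h (w' r) = none

/-- The machine with erased letters. -/
def er {S S' : Type} {k : ℕ} (h : S' → Option S) (M : Machine k S') : Machine k S where
  St := M.St
  Sym := M.Sym
  finSt := M.finSt
  finSym := M.finSym
  start := M.start
  blank := M.blank
  δ := fun s y => ((M.δ s y).1, (M.δ s y).2.1, (M.δ s y).2.2.bind h)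

theorem er_conf {S S' : Type} {k : ℕ} (h : S' → Option S) (M : Machine k S') (t : ℕ) :
    ((er h M).conf t).st = (M.conf t).st ∧ ((er h M).conf t).tape = (M.conf t).tape ∧
      ((er h M).conf t).out = (M.conf t).out.filterMap h := by
  induction t with
  | zero => exact ⟨rfl, rfl, rfl⟩
  | succ t ih =>
    obtain ⟨h1, h2, h3⟩ := ih
    have e1 : (er h M).conf (t + 1) = (er h M).step ((er h M).conf t) := by
      unfold Machine.conf
      rw [Function.iterate_succ_apply']
    have e2 : M.conf (t + 1) = M.step (M.conf t) := by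
      unfold Machine.conf
      rw [Function.iterate_succ_apply']
    rw [e1, e2]
    refine ⟨?_, ?_, ?_⟩
    · simp only [Machine.step, h1, h2]
      rfl
    · simp only [Machine.step, h1, h2]
      rfl
    · simp only [Machine.step, h1, h2, h3, List.filterMap_append]
      congr 1
      have e3 : ((er h M).δ (M.conf t).st fun i =>
          ((M.conf t).tape i).cell ((M.conf t).tape i).head).2.2 =
          ((M.δ (M.conf t).st fun i =>
          ((M.conf t).tape i).cell ((M.conf t).tape i).head).2.2).bind h := rfl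
      rw [e3]
      cases (M.δ (M.conf t).st fun i =>
          ((M.conf t).tape i).cell ((M.conf t).tape i).head).2.2 with
      | none => rfl
      | some x => cases hx : h x <;> simp [hx]

theorem Dec.filter {S S' : Type} {h : S' → Option S} {w' : ℕ → S'} {w : ℕ → S} {P : ℕ → ℕ}
    (hd : Dec h w' w P) (n : ℕ) : ∃ k, (pre w' n).filterMap h = pre w k ∧
      (k = 0 ∨ P (k - 1) < n) ∧ n ≤ P k := by
  induction n with
  | zero => exact ⟨0, by simp [pre], Or.inl rfl, Nat.zero_le _⟩
  | succ n ih =>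
    obtain ⟨k, h1, h2, h3⟩ := ih
    rw [pre_succ, List.filterMap_append, h1]
    rcases h3.eq_or_lt with h4 | h4
    · refine ⟨k + 1, ?_, Or.inr ?_, ?_⟩
      · rw [pre_succ, h4]
        congr 1
        simp [hd.some k]
      · simp only [Nat.add_sub_cancel]
        omega
      · have h5 : P k < P (k + 1) := hd.mono (Nat.lt_succ_self k)
        omega
    · have h5 : k ≠ 0 := by
        rintro rfl
        rw [hd.zero] at h4
        omega
      have h6 : P (k - 1) < n := by
        rcases h2 with h2 | h2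
        · exact absurd h2 h5
        · exact h2
      have h7 := hd.none (k - 1) n h6 (by rwa [Nat.sub_add_cancel (by omega)])
      refine ⟨k, ?_, Or.inr (by omega), by omega⟩
      simp [h7]

theorem isPre_iff {S : Type} {l : List S} {w : ℕ → S} : IsPre l w ↔ l = pre w l.length := by
  constructor
  · intro h
    apply List.ext_getElem
    · simp
    · intro i h1 h2
      rw [pre_getElem]
      exact h i h1
  · intro h i hi
    have : l[i] = (pre w l.length)[i]'(by simpa using hi) := by
      congr 1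
    rw [this, pre_getElem]

theorem T_spec {S : Type} {k : ℕ} {M : Machine k S} {w : ℕ → S} (hM : M.Generates w) (n : ℕ) :
    n ≤ (M.conf (M.T n)).out.length :=
  Nat.sInf_mem (s := {t | n ≤ (M.conf t).out.length}) (hM.2 n)

theorem T_le {S : Type} {k : ℕ} {M : Machine k S} {n t : ℕ}
    (h : n ≤ (M.conf t).out.length) : M.T n ≤ t := Nat.sInf_le h

/-- Erasing letters. -/
theorem er_gen {S S' : Type} {k : ℕ} {h : S' → Option S} {M : Machine k S'} {w' : ℕ → S'}
    {w : ℕ → S} {P : ℕ → ℕ} (hd : Dec h w' w P) (hM : M.Generates w') :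
    (er h M).Generates w ∧ ∀ n : ℕ, 1 ≤ n → ∀ s : ℝ, M.SpaceLE (P (n - 1) + 1) s →
      (er h M).SpaceLE n s := by
  have hlen : ∀ n t, P (n - 1) + 1 ≤ (M.conf t).out.length → 1 ≤ n →
      n ≤ ((er h M).conf t).out.length := by
    intro n t ht hn
    rw [(er_conf h M t).2.2, isPre_iff.1 (hM.1 t)]
    obtain ⟨j, h1, h2, h3⟩ := hd.filter (M.conf t).out.length
    rw [h1, pre_length]
    by_contra hc
    have : P j ≤ P (n - 1) := hd.mono.monotone (by omega)
    omega
  refine ⟨⟨?_, ?_⟩, ?_⟩
  · intro t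
    rw [(er_conf h M t).2.2, isPre_iff.1 (hM.1 t)]
    obtain ⟨j, h1, -, -⟩ := hd.filter (M.conf t).out.length
    rw [h1]
    intro i hi
    simp
  · intro n
    rcases Nat.eq_zero_or_pos n with rfl | hn
    · exact ⟨0, Nat.zero_le _⟩
    · obtain ⟨t, ht⟩ := hM.2 (P (n - 1) + 1)
      exact ⟨t, hlen n t ht hn⟩
  · intro n hn s hs t ht i
    have h1 : (er h M).T n ≤ M.T (P (n - 1) + 1) := T_le (hlen n _ (T_spec hM _) hn)
    have h2 := hs t (ht.trans h1) i
    have e : (((er h M).conf t).tape) = (M.conf t).tape := (er_conf h M t).2.1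
    rw [e]
    exact h2

theorem spaceLE_mono {S : Type} {k : ℕ} {M : Machine k S} {n : ℕ} {s s' : ℝ} (hs : s ≤ s')
    (h : M.SpaceLE n s) : M.SpaceLE n s' := fun t ht i =>
  ⟨(h t ht i).1.trans_le hs, fun j hj => (h t ht i).2 j (hs.trans hj)⟩

/-- The decoded word is in the same space class. -/
theorem inSpace_dec {S S' : Type} {h : S' → Option S} {w' : ℕ → S'}
    {w : ℕ → S} {P : ℕ → ℕ} (hd : Dec h w' w P) {B d : ℕ} (hB : ∀ k, P k + 1 ≤ B * (k + 1) ^ d)
    {s : ℕ → ℝ} (hs0 : ∀ n, 0 ≤ s n)
    (hs : ∀ B d : ℕ, ∃ C : ℝ, ∀ n m : ℕ, 1 ≤ n → m ≤ B * n ^ d → s m ≤ C * s n)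
    (hw : InSpace s w') : InSpace s w := by
  obtain ⟨k, M, C, hM, hC⟩ := hw
  obtain ⟨h1, h2⟩ := er_gen hd hM
  obtain ⟨C', hC'⟩ := hs B d
  refine ⟨k, er h M, |C| * C', h1, ?_⟩
  intro n hn
  apply h2 n hn
  refine spaceLE_mono ?_ (hC (P (n - 1) + 1) (by omega))
  have h3 : P (n - 1) + 1 ≤ B * n ^ d := by
    have := hB (n - 1)
    rwa [Nat.sub_add_cancel hn] at this
  calc C * s (P (n - 1) + 1) ≤ |C| * s (P (n - 1) + 1) :=
        mul_le_mul_of_nonneg_right (le_abs_self C) (hs0 _)
    _ ≤ |C| * (C' * s n) := mul_le_mul_of_nonneg_left (hC' n _ hn h3) (abs_nonneg C)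
    _ = _ := by ring

/-- Composition of decodings. -/
theorem Dec.comp {S S' S'' : Type} {h : S' → Option S} {h' : S'' → Option S'} {w'' : ℕ → S''}
    {w' : ℕ → S'} {w : ℕ → S} {P P' : ℕ → ℕ} (hd : Dec h w' w P) (hd' : Dec h' w'' w' P') :
    Dec (fun x => (h' x).bind h) w'' w (P' ∘ P) := by
  refine ⟨hd'.mono.comp hd.mono, by simp [hd.zero, hd'.zero], ?_, ?_⟩
  · intro k
    simp [hd'.some, hd.some]
  · intro k r h1 h2
    simp only [Function.comp] at h1 h2
    -- the last `j` with `P' j ≤ r`
    have hex : ∃ j, r < P' j := ⟨P (k + 1), h2⟩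
    classical
    obtain ⟨j, hj⟩ : ∃ j, j = Nat.find hex := ⟨_, rfl⟩
    have h3 : r < P' j := by rw [hj]; exact Nat.find_spec hex
    have h4 : j ≤ P (k + 1) := by rw [hj]; exact Nat.find_min' hex h2
    have h5 : P k < j := hd'.mono.lt_iff_lt.1 (h1.trans h3)
    have h6 : ¬ r < P' (j - 1) := by
      apply Nat.find_min hex
      rw [← hj]
      omega
    rcases (Nat.le_of_not_lt h6).eq_or_lt with h7 | h7
    · have h8 : P' (j - 1) < P' (P (k + 1)) := by omega
      have h9 : j - 1 < P (k + 1) := hd'.mono.lt_iff_lt.1 h8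
      have h10 : P k < j - 1 := by
        rw [← h7] at h1
        exact hd'.mono.lt_iff_lt.1 h1
      rw [← h7, hd'.some]
      exact hd.none k _ h10 h9
    · have h8 := hd'.none (j - 1) r h7 (by rwa [Nat.sub_add_cancel (by omega)])
      rw [h8]
      rfl

/-- Nothing is erased. -/
theorem Dec.refl {S : Type} (w : ℕ → S) : Dec Option.some w w id :=
  ⟨strictMono_id, rfl, fun _ => rfl, fun k r h1 h2 => by simp only [id] at h1 h2; omega⟩

end Pool.Agent.W614.Dg
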