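import Pool.Agent.H584R2.Dg.Defs

/-!
The queue process of a dgsm, and the limit word as the trace of its queue process.
-/

set_option autoImplicit false

namespace Pool.Agent.W614.Dg

open Pool.Agent.H584R2.Dg

variable {S : Type}

/-- The prefix of length `n` of `w`. -/
def pre (w : ℕ → S) (n : ℕ) : List S := (List.range n).map w

@[simp] theorem pre_length (w : ℕ → S) (n : ℕ) : (pre w n).length = n := by simp [pre]

@[simp] theorem pre_getElem (w : ℕ → S) (n i : ℕ) (h : i < (pre w n).length) :
    (pre w n)[i] = w i := by simp [pre]

theorem pre_succ (w : ℕ → S) (n : ℕ) : pre w (n + 1) = pre w n ++ [w n] := by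
  simp [pre, List.range_succ]

theorem pre_one (w : ℕ → S) : pre w (0 + 1) = [w 0] := by simp [pre]

/-- One step of the queue process: the first letter of the queue is read, the output is appended. -/
def qstep (τ : Dgsm S) (c : τ.Q × List S) : τ.Q × List S :=
  match c.2 with
  | [] => c
  | x :: v => (τ.next c.1 x, v ++ τ.out c.1 x)

/-- The queue process after `r` steps. -/
def qconf (τ : Dgsm S) (c : τ.Q × List S) (r : ℕ) : τ.Q × List S := (qstep τ)^[r] c

/-- The state after reading a word. -/
def stAfter (τ : Dgsm S) : τ.Q → List S → τ.Q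
  | q, [] => q
  | q, x :: v => stAfter τ (τ.next q x) v

/-- The letters read by the queue process are the letters of `w`. -/
def IsTrace (τ : Dgsm S) (c : τ.Q × List S) (w : ℕ → S) : Prop :=
  ∀ r, (qconf τ c r).2.head? = some (w r)

theorem qconf_zero (τ : Dgsm S) (c : τ.Q × List S) : qconf τ c 0 = c := rfl

theorem qconf_succ (τ : Dgsm S) (c : τ.Q × List S) (r : ℕ) :
    qconf τ c (r + 1) = qstep τ (qconf τ c r) := by
  unfold qconf
  rw [Function.iterate_succ_apply']

theorem qconf_add (τ : Dgsm S) (c : τ.Q × List S) (r s : ℕ) :
    qconf τ c (r + s) = qconf τ (qconf τ c r) s := by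
  unfold qconf
  rw [add_comm, Function.iterate_add_apply]

theorem qstep_cons (τ : Dgsm S) (q : τ.Q) (x : S) (v : List S) :
    qstep τ (q, x :: v) = (τ.next q x, v ++ τ.out q x) := rfl

theorem run_append (τ : Dgsm S) (q : τ.Q) (u v : List S) :
    τ.run q (u ++ v) = τ.run q u ++ τ.run (stAfter τ q u) v := by
  induction u generalizing q with
  | nil => rfl
  | cons x u ih => simp [Dgsm.run, stAfter, ih]

theorem stAfter_append (τ : Dgsm S) (q : τ.Q) (u v : List S) :
    stAfter τ q (u ++ v) = stAfter τ (stAfter τ q u) v := by
  induction u generalizing q with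
  | nil => rfl
  | cons x u ih => simp [stAfter, ih]

/-- A whole word is read. -/
theorem pass (τ : Dgsm S) (q : τ.Q) (u v : List S) :
    qconf τ (q, u ++ v) u.length = (stAfter τ q u, v ++ τ.run q u) := by
  induction u generalizing q v with
  | nil => simp [qconf, stAfter, Dgsm.run]
  | cons x u ih =>
    rw [List.length_cons, add_comm, qconf_add, qconf_succ, qconf_zero, List.cons_append,
      qstep_cons, List.append_assoc, ih]
    simp [stAfter, Dgsm.run]

/-- The letters read during a pass. -/
theorem pass_head (τ : Dgsm S) (q : τ.Q) (u v : List S) (i : ℕ) (hi : i < u.length) :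
    (qconf τ (q, u ++ v) i).2.head? = some u[i] := by
  have h : u = u.take i ++ u.drop i := (List.take_append_drop i u).symm
  have hl : (u.take i).length = i := by simp; omega
  have h2 : qconf τ (q, u ++ v) i =
      (stAfter τ q (u.take i), (u.drop i ++ v) ++ τ.run q (u.take i)) := by
    have := pass τ q (u.take i) (u.drop i ++ v)
    rw [hl, ← List.append_assoc, List.take_append_drop] at this
    exact this
  rw [h2]
  have h3 : u.drop i = u[i] :: u.drop (i + 1) := List.drop_eq_getElem_cons hi
  rw [h3]
  rfl

section NE

variable {τ : Dgsm S} (hne : τ.NonErasing)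

include hne

theorem run_length (q : τ.Q) (u : List S) : u.length ≤ (τ.run q u).length := by
  induction u generalizing q with
  | nil => simp [Dgsm.run]
  | cons x u ih =>
    have := List.length_pos_of_ne_nil (hne q x)
    have := ih (τ.next q x)
    simp only [Dgsm.run, List.length_append, List.length_cons]
    omega

/-- The queue never gets shorter. -/
theorem qstep_length (c : τ.Q × List S) : c.2.length ≤ (qstep τ c).2.length := by
  obtain ⟨q, v⟩ := c
  cases v with
  | nil => simp [qstep]
  | cons x v =>
    have := List.length_pos_of_ne_nil (hne q x)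
    simp only [qstep, List.length_append, List.length_cons]
    omega

theorem qconf_mono (c : τ.Q × List S) {r s : ℕ} (h : r ≤ s) :
    (qconf τ c r).2.length ≤ (qconf τ c s).2.length := by
  induction s, h using Nat.le_induction with
  | base => exact le_rfl
  | succ n _ ih =>
    rw [qconf_succ]
    exact ih.trans (qstep_length hne _)

end NE

/-- The letters in the queue are read later. -/
theorem trace_queue {τ : Dgsm S} {c : τ.Q × List S} {w : ℕ → S} (ht : IsTrace τ c w) (r i : ℕ)
    (hi : i < (qconf τ c r).2.length) : (qconf τ c r).2[i] = w (r + i) := by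
  have h1 := ht (r + i)
  rw [qconf_add] at h1
  have h2 := pass_head τ (qconf τ c r).1 (qconf τ c r).2 [] i hi
  rw [List.append_nil] at h2
  have h3 : qconf τ ((qconf τ c r).1, (qconf τ c r).2) i = qconf τ (qconf τ c r) i := rfl
  rw [h3, h1] at h2
  exact (Option.some.inj h2).symm

/-- The number of letters read after which the queue process has produced the prefix. -/
theorem map_prefix {τ : Dgsm S} {a : S} {u : List S} (hout : τ.out τ.init a = a :: u)
    {w : ℕ → S} (h0 : w 0 = a)
    (ht : IsTrace τ (τ.next τ.init a, u) (fun r => w (r + 1))) (r : ℕ) :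
    τ.map (pre w (r + 1)) =
      pre w (r + 1) ++ (qconf τ (τ.next τ.init a, u) r).2 ∧
    stAfter τ τ.init (pre w (r + 1)) =
      (qconf τ (τ.next τ.init a, u) r).1 := by
  induction r with
  | zero => simp [pre_one, Dgsm.map, Dgsm.run, h0, hout, qconf, stAfter]
  | succ r ih =>
    obtain ⟨ih1, ih2⟩ := ih
    have hs : pre w (r + 1 + 1) =
        pre w (r + 1) ++ [w (r + 1)] := by
      exact pre_succ w (r + 1)
    have h1 := ht r
    rw [hs, qconf_succ]
    rcases h : qconf τ (τ.next τ.init a, u) r with ⟨q', v⟩
    simp only [h] at h1 ih1 ih2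
    cases v with
    | nil => simp at h1
    | cons x v =>
      simp only [List.head?_cons, Option.some.injEq] at h1
      subst h1
      constructor
      · unfold Dgsm.map at ih1 ⊢
        rw [run_append, ih1, ih2]
        simp [Dgsm.run, qstep]
      · rw [stAfter_append, ih2]
        simp [stAfter, qstep]

/-- A trace gives a limit word. -/
theorem isLimit_of_trace {τ : Dgsm S} (hne : τ.NonErasing) {a : S} {u : List S}
    (hout : τ.out τ.init a = a :: u) (hu : u ≠ []) {w : ℕ → S} (h0 : w 0 = a)
    (ht : IsTrace τ (τ.next τ.init a, u) (fun r => w (r + 1))) :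
    τ.IsLimit a w ∧
      (τ.map [a]).length = 1 + u.length ∧
      ∀ n, (τ.map^[n + 1] [a]).length =
        (τ.map^[n] [a]).length +
          (qconf τ (τ.next τ.init a, u) ((τ.map^[n] [a]).length - 1)).2.length := by
  have hmap : τ.map [a] = a :: u := by simp [Dgsm.map, Dgsm.run, hout]
  -- every iterate is a prefix of `w` of positive length
  have hpre : ∀ n, ∃ r, τ.map^[n] [a] = pre w (r + 1) := by
    intro n
    induction n with
    | zero => exact ⟨0, by rw [pre_one, h0]; rfl⟩
    | succ n ih =>
      obtain ⟨r, hr⟩ := ih
      rw [Function.iterate_succ_apply', hr, (map_prefix hout h0 ht r).1]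
      refine ⟨r + (qconf τ (τ.next τ.init a, u) r).2.length, ?_⟩
      apply List.ext_getElem
      · simp; omega
      · intro i h1 h2
        rw [List.getElem_append]
        split_ifs with h3
        · simp
        · rw [trace_queue ht]
          simp only [pre_length, pre_getElem]
          congr 1
          simp at h3
          omega
  have hlen : ∀ n, (τ.map^[n + 1] [a]).length = (τ.map^[n] [a]).length +
      (qconf τ (τ.next τ.init a, u) ((τ.map^[n] [a]).length - 1)).2.length := by
    intro n
    obtain ⟨r, hr⟩ := hpre n
    rw [Function.iterate_succ_apply', hr, (map_prefix hout h0 ht r).1]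
    simp [pre_length]
  have hpos : ∀ r, 1 ≤ (qconf τ (τ.next τ.init a, u) r).2.length := by
    intro r
    have := qconf_mono hne (τ.next τ.init a, u) (Nat.zero_le r)
    rw [qconf_zero] at this
    have := List.length_pos_of_ne_nil hu
    simp only at *
    omega
  refine ⟨⟨?_, ?_, ?_⟩, ?_, hlen⟩
  · rw [hmap]; exact ⟨u, rfl⟩
  · intro N
    refine ⟨N, ?_⟩
    induction N with
    | zero => simp
    | succ N ih =>
      rw [hlen]
      have := hpos ((τ.map^[N] [a]).length - 1)
      omega
  · intro n i hi
    obtain ⟨r, hr⟩ := hpre n
    simp only [hr, pre_getElem]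
  · rw [hmap]; simp; omega

/-- A limit word is a trace. -/
theorem trace_of_isLimit {τ : Dgsm S} (hne : τ.NonErasing) {a : S} {w : ℕ → S}
    (hw : τ.IsLimit a w) : ∃ u : List S, τ.out τ.init a = a :: u ∧ u ≠ [] ∧ w 0 = a ∧
      IsTrace τ (τ.next τ.init a, u) (fun r => w (r + 1)) := by
  obtain ⟨h1, h2, h3⟩ := hw
  obtain ⟨u, hu⟩ : ∃ u, τ.out τ.init a = a :: u := by
    obtain ⟨u, hu⟩ := h1
    refine ⟨u, ?_⟩
    simpa [Dgsm.map, Dgsm.run] using hu.symm
  have hmap : τ.map [a] = a :: u := by simp [Dgsm.map, Dgsm.run, hu]
  have hune : u ≠ [] := by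
    rintro rfl
    obtain ⟨n, hn⟩ := h2 2
    have h4 : ∀ l, τ.map^[l] [a] = [a] := by
      intro l
      induction l with
      | zero => rfl
      | succ l ih => rw [Function.iterate_succ_apply', ih, hmap]
    rw [h4 n] at hn
    simp at hn
  have h0 : w 0 = a := by
    have := h3 0 0 (by simp)
    simpa using this.symm
  -- the image of a prefix is a prefix
  have hpm : ∀ m, IsPre (τ.map (pre w m)) w := by
    intro m
    obtain ⟨n, hn⟩ := h2 m
    have e : τ.map^[n] [a] = pre w m ++ (τ.map^[n] [a]).drop m := by
      conv_lhs => rw [← List.take_append_drop m (τ.map^[n] [a])]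
      congr 1
      apply List.ext_getElem
      · simp; omega
      · intro i h5 h6
        simp only [List.getElem_take, pre_getElem]
        exact h3 n i (by simp at h5; omega)
    have h5 := h3 (n + 1)
    rw [Function.iterate_succ_apply', e] at h5
    unfold Dgsm.map at h5 ⊢
    rw [run_append] at h5
    intro i hi
    have := h5 i (by rw [List.length_append]; omega)
    rw [List.getElem_append_left hi] at this
    exact this
  refine ⟨u, hu, hune, h0, ?_⟩
  intro r
  induction r using Nat.strong_induction_on with
  | _ r ih =>
    -- the invariant for `r` from the letters before `r`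
    have key : ∀ s, s ≤ r → τ.map (pre w (s + 1)) =
        pre w (s + 1) ++ (qconf τ (τ.next τ.init a, u) s).2 ∧
        stAfter τ τ.init (pre w (s + 1)) =
        (qconf τ (τ.next τ.init a, u) s).1 := by
      intro s
      induction s with
      | zero =>
        intro _
        simp [pre_one, Dgsm.map, Dgsm.run, h0, hu, qconf, stAfter]
      | succ s ihs =>
        intro hs
        obtain ⟨ih1, ih2⟩ := ihs (by omega)
        have hsl : pre w (s + 1 + 1) =
            pre w (s + 1) ++ [w (s + 1)] := by
          exact pre_succ w (s + 1)
        have h6 := ih s (by omega)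
        rw [hsl, qconf_succ]
        rcases h : qconf τ (τ.next τ.init a, u) s with ⟨q', v⟩
        simp only [h] at h6 ih1 ih2
        cases v with
        | nil => simp at h6
        | cons x v =>
          simp only [List.head?_cons, Option.some.injEq] at h6
          subst h6
          constructor
          · unfold Dgsm.map at ih1 ⊢
            rw [run_append, ih1, ih2]
            simp [Dgsm.run, qstep]
          · rw [stAfter_append, ih2]
            simp [stAfter, qstep]
    obtain ⟨k1, -⟩ := key r le_rfl
    have h7 := hpm (r + 1)
    rw [k1] at h7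
    have hl : 1 ≤ (qconf τ (τ.next τ.init a, u) r).2.length := by
      have := qconf_mono hne (τ.next τ.init a, u) (Nat.zero_le r)
      rw [qconf_zero] at this
      have := List.length_pos_of_ne_nil hune
      simp only at *
      omega
    have h8 := h7 (r + 1) (by simp; omega)
    rw [List.getElem_append_right (by simp)] at h8
    simp only [pre_length, Nat.sub_self] at h8
    rw [List.head?_eq_getElem?, List.getElem?_eq_getElem (by omega), h8]

end Pool.Agent.W614.Dg
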