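import Pool.Agent.W614.Dg.Queue

/-!
Simulation of a dgsm by a dgsm with two states.
-/

set_option autoImplicit false

namespace Pool.Agent.W614.Dg

open Pool.Agent.H584R2.Dg

/-- Reading the word `W` leads from the configuration `c` to `c'`. -/
def Rd {S : Type} (τ : Dgsm S) (c : τ.Q × List S) (W : List S) (c' : τ.Q × List S) : Prop :=
  qconf τ c W.length = c' ∧ ∀ (i : ℕ) (h : i < W.length), (qconf τ c i).2.head? = some W[i]

theorem Rd.refl {S : Type} (τ : Dgsm S) (c : τ.Q × List S) : Rd τ c [] c :=
  ⟨rfl, fun i h => by simp at h⟩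

theorem Rd.trans {S : Type} {τ : Dgsm S} {c c' c'' : τ.Q × List S} {W W' : List S}
    (h : Rd τ c W c') (h' : Rd τ c' W' c'') : Rd τ c (W ++ W') c'' := by
  refine ⟨?_, ?_⟩
  · rw [List.length_append, qconf_add, h.1, h'.1]
  · intro i hi
    rw [List.getElem_append]
    split_ifs with h1
    · exact h.2 i h1
    · have e : i = W.length + (i - W.length) := by omega
      conv_lhs => rw [e]
      rw [qconf_add, h.1]
      exact h'.2 _ _

theorem Rd.pass {S : Type} (τ : Dgsm S) (q : τ.Q) (u v : List S) :
    Rd τ (q, u ++ v) u (stAfter τ q u, v ++ τ.run q u) :=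
  ⟨Pool.Agent.W614.Dg.pass τ q u v, pass_head τ q u v⟩

theorem Rd.full {S : Type} (τ : Dgsm S) (q : τ.Q) (u : List S) :
    Rd τ (q, u) u (stAfter τ q u, τ.run q u) := by
  have := Rd.pass τ q u []
  simpa using this

/-- Letters: dead cell, plain letter, front in waiting. -/
inductive Bs (Q S : Type)
  | D
  | P (y : S)
  | F (q : Q) (y : S)

/-- The letters of the simulating dgsm. -/
inductive L2 (Q S : Type) (m : ℕ)
  | start
  | base (b : Bs Q S)
  | E
  | act (q : Q) (y : S)
  | snd (b : Bs Q S) (i : Fin (m + 1))
  | rcv (z : Option S) (j : Fin (m + 1))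

/-- Data for the simulation: codes of the messages. -/
structure Cod (Q S : Type) where
  m : ℕ
  enc : Q × S × Bool → Fin (m + 1)
  dec : Fin (m + 1) → Q × S × Bool
  dec_enc : ∀ c, dec (enc c) = c

variable {Q S : Type}

/-- plain letters -/
def pl {m : ℕ} (v : List S) : List (L2 Q S m) := v.map (fun y => .base (.P y))

theorem pl_append {m : ℕ} (v w : List S) : (pl (v ++ w) : List (L2 Q S m)) = pl v ++ pl w := by
  simp [pl]

@[simp] theorem pl_length {m : ℕ} (v : List S) : (pl v : List (L2 Q S m)).length = v.length := by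
  simp [pl]

/-- The output of the simulating dgsm. -/
def out2 (δ : Q → S → Q) (ou : Q → S → List S) (C : Cod Q S) (b0 : List (L2 Q S C.m)) :
    Bool → L2 Q S C.m → List (L2 Q S C.m)
  | false, .start => .start :: b0
  | false, .base b => [.base b]
  | false, .E => [.E]
  | false, .act q y => [.snd .D (C.enc (q, y, true))]
  | false, .snd b i => if i = 0 then [.base b] else [.snd b (i - 1)]
  | false, .rcv (some y) j =>
      [.snd (if (C.dec j).2.2 then .F (δ (C.dec j).1 (C.dec j).2.1) y else .P y)
        (C.enc ((C.dec j).1, (C.dec j).2.1, false))]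
  | false, .rcv none j =>
      if (C.dec j).2.2 then
        match ou (C.dec j).1 (C.dec j).2.1 with
        | [] => [.E]
        | y :: v => .base (.F (δ (C.dec j).1 (C.dec j).2.1) y) :: pl v
      else pl (ou (C.dec j).1 (C.dec j).2.1)
  | true, .base .D => [.E]
  | true, .base (.P y) => [.rcv (some y) 0]
  | true, .base (.F q y) => [.act q y]
  | true, .E => [.rcv none 0]
  | true, .rcv z j => [.rcv z (j + 1)]
  | true, x => [x]

/-- The next state of the simulating dgsm. -/
def next2 (C : Cod Q S) : Bool → L2 Q S C.m → Bool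
  | false, .snd _ _ => true
  | false, .rcv none _ => true
  | true, .base .D => true
  | _, _ => false

/-- The simulating dgsm. -/
def sim (τ : Dgsm S) (C : Cod τ.Q S) (b0 : List (L2 τ.Q S C.m)) : Dgsm (L2 τ.Q S C.m) where
  Q := Bool
  finQ := inferInstance
  init := false
  next := next2 C
  out := out2 τ.next τ.out C b0

/-- Letters which are copied in the state `false`. -/
def Inert {m : ℕ} (x : L2 Q S m) : Prop := (∃ b, x = .base b) ∨ x = .E

/-- Letters which are not active. -/
def Passive {m : ℕ} (x : L2 Q S m) : Prop := x ≠ .start ∧ ∀ q y, x ≠ .act q y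

section

variable {τ : Dgsm S} {C : Cod τ.Q S} {b0 : List (L2 τ.Q S C.m)}

theorem run_inert {v : List (L2 τ.Q S C.m)} (hv : ∀ x ∈ v, Inert x) :
    (sim τ C b0).run false v = v ∧ stAfter (sim τ C b0) false v = false := by
  induction v with
  | nil => exact ⟨rfl, rfl⟩
  | cons x v ih =>
    obtain ⟨h1, h2⟩ := ih (fun y hy => hv y (List.mem_cons_of_mem _ hy))
    rcases hv x List.mem_cons_self with ⟨b, rfl⟩ | rfl
    · have e : (sim τ C b0).out false (.base b) = [.base b] := by
        simp [sim, out2]
      have e2 : (sim τ C b0).next false (.base b) = false := by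
        simp [sim, next2]
      simp only [Dgsm.run, stAfter, e, e2, h1, h2]
      exact ⟨rfl, trivial⟩
    · have e : (sim τ C b0).out false .E = [.E] := by
        simp [sim, out2]
      have e2 : (sim τ C b0).next false .E = false := by
        simp [sim, next2]
      simp only [Dgsm.run, stAfter, e, e2, h1, h2]
      exact ⟨rfl, trivial⟩

theorem inert_pl (v : List S) : ∀ x ∈ (pl v : List (L2 Q S C.m)), Inert x := by
  intro x hx
  simp only [pl, List.mem_map] at hx
  obtain ⟨y, -, rfl⟩ := hx
  exact Or.inl ⟨_, rfl⟩

/-- A pass over `pre ++ mid ++ post` with inert `pre` and `post`. -/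
theorem pass3 {pre mid post out : List (L2 τ.Q S C.m)} {b : Bool}
    (hpre : ∀ x ∈ pre, Inert x) (hpost : b = true → post = []) (hpost' : ∀ x ∈ post, Inert x)
    (hrun : (sim τ C b0).run false mid = out) (hst : stAfter (sim τ C b0) false mid = b) :
    Rd (sim τ C b0) (false, pre ++ mid ++ post) (pre ++ mid ++ post) (b, pre ++ out ++ post) := by
  have h := Rd.full (sim τ C b0) false (pre ++ mid ++ post)
  have e1 : (sim τ C b0).run false (pre ++ mid ++ post) = pre ++ out ++ post := by
    rw [run_append, run_append, (run_inert hpre).1, (run_inert hpre).2, hrun]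
    congr 1
    rw [stAfter_append, (run_inert hpre).2, hst]
    rcases Bool.eq_false_or_eq_true b with hb | hb
    · rw [hpost hb]; rfl
    · rw [hb]; exact (run_inert hpost').1
  have e2 : stAfter (sim τ C b0) false (pre ++ mid ++ post) = b := by
    rw [stAfter_append, stAfter_append, (run_inert hpre).2, hst]
    rcases Bool.eq_false_or_eq_true b with hb | hb
    · rw [hpost hb]; rfl
    · rw [hb]; exact (run_inert hpost').2
  rw [e1, e2] at h
  exact h

end

/-- The receiving cell: plain letter or end marker. -/
def zl {m : ℕ} : Option S → L2 Q S m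
  | some y => .base (.P y)
  | none => .E

section

variable {τ : Dgsm S} {C : Cod τ.Q S} {b0 : List (L2 τ.Q S C.m)}

/-- One signal. -/
theorem signal (pre post : List (L2 τ.Q S C.m)) (hpre : ∀ x ∈ pre, Inert x)
    (hpost : ∀ x ∈ post, Inert x) (b : Bs τ.Q S) (i : Fin (C.m + 1)) (r r' : L2 τ.Q S C.m)
    (hr : out2 τ.next τ.out C b0 true r = [r']) (hr' : next2 C true r = false) :
    Rd (sim τ C b0) (false, pre ++ .snd b i :: r :: post) (pre ++ .snd b i :: r :: post)
      (false, pre ++ (if i = 0 then .base b else .snd b (i - 1)) :: r' :: post) := by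
  have h := pass3 (τ := τ) (b0 := b0) (pre := pre) (mid := [.snd b i, r]) (post := post)
    (out := [if i = 0 then .base b else .snd b (i - 1), r']) (b := false) hpre (by simp) hpost
    (by
      have e : (sim τ C b0).out false (.snd b i) =
          [if i = 0 then L2.base b else L2.snd b (i - 1)] := by
        simp only [sim, out2]
        split_ifs <;> rfl
      have e2 : (sim τ C b0).next false (.snd b i) = true := rfl
      have e3 : (sim τ C b0).out true r = [r'] := hr
      simp only [Dgsm.run, e, e2, e3]
      rfl)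
    (by
      have e2 : (sim τ C b0).next false (.snd b i) = true := rfl
      have e3 : (sim τ C b0).next true r = false := hr'
      simp only [stAfter, e2, e3])
  simpa using h

/-- Later signals. -/
theorem signals (pre post : List (L2 τ.Q S C.m)) (hpre : ∀ x ∈ pre, Inert x)
    (hpost : ∀ x ∈ post, Inert x) (b : Bs τ.Q S) (z : Option S) :
    ∀ (n : ℕ) (i j : Fin (C.m + 1)), (i : ℕ) = n → ∃ W,
      Rd (sim τ C b0) (false, pre ++ .snd b i :: .rcv z j :: post) W
        (false, pre ++ .base b :: .rcv z (j + i + 1) :: post) ∧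
      (∀ x ∈ W, x ∈ pre ∨ x ∈ post ∨ Passive x) ∧
      W.length = (n + 1) * (pre.length + post.length + 2) := by
  have hp : ∀ (i j : Fin (C.m + 1)), ∀ x ∈ pre ++ L2.snd b i :: L2.rcv z j :: post,
      x ∈ pre ∨ x ∈ post ∨ Passive x := by
    intro i j x hx
    simp only [List.mem_append, List.mem_cons] at hx
    rcases hx with h | rfl | rfl | h
    · exact Or.inl h
    · exact Or.inr (Or.inr ⟨by simp, by simp⟩)
    · exact Or.inr (Or.inr ⟨by simp, by simp⟩)
    · exact Or.inr (Or.inl h)
  intro n
  induction n with
  | zero =>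
    intro i j hi
    have hi0 : i = 0 := Fin.ext hi
    subst hi0
    have h := signal (τ := τ) (b0 := b0) pre post hpre hpost b 0 (.rcv z j) (.rcv z (j + 1))
      (by simp [out2]) (by simp [next2])
    rw [if_pos rfl] at h
    refine ⟨_, ?_, hp 0 j, ?_⟩
    · rw [add_zero]; exact h
    · simp; omega
  | succ n ih =>
    intro i j hi
    have hi0 : i ≠ 0 := by
      intro h
      rw [h] at hi
      simp at hi
    have h := signal (τ := τ) (b0 := b0) pre post hpre hpost b i (.rcv z j) (.rcv z (j + 1))
      (by simp [out2]) (by simp [next2])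
    rw [if_neg hi0] at h
    have hi1 : ((i - 1 : Fin (C.m + 1)) : ℕ) = n := by
      rw [Fin.val_sub_one_of_ne_zero hi0, hi]
      rfl
    obtain ⟨W, h1, h2, h3⟩ := ih (i - 1) (j + 1) hi1
    have e : j + 1 + (i - 1) + 1 = j + i + 1 := by abel
    rw [e] at h1
    refine ⟨_, h.trans h1, ?_, ?_⟩
    · intro x hx
      rcases List.mem_append.1 hx with hx | hx
      · exact hp i j x hx
      · exact h2 x hx
    · simp only [List.length_append, List.length_cons, h3]
      ring

/-- Transfer of a message to the next cell. -/
theorem transfer (pre post : List (L2 τ.Q S C.m)) (hpre : ∀ x ∈ pre, Inert x)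
    (hpost : ∀ x ∈ post, Inert x) (b : Bs τ.Q S) (z : Option S) (c : Fin (C.m + 1)) : ∃ W,
      Rd (sim τ C b0) (false, pre ++ .snd b c :: zl z :: post) W
        (false, pre ++ .base b :: .rcv z c :: post) ∧
      (∀ x ∈ W, x ∈ pre ∨ x ∈ post ∨ Passive x) ∧
      W.length = ((c : ℕ) + 1) * (pre.length + post.length + 2) := by
  have hp : ∀ x ∈ pre ++ L2.snd b c :: zl z :: post,
      x ∈ pre ∨ x ∈ post ∨ Passive x := by
    intro x hx
    simp only [List.mem_append, List.mem_cons] at hx
    rcases hx with h | rfl | rfl | h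
    · exact Or.inl h
    · exact Or.inr (Or.inr ⟨by simp, by simp⟩)
    · refine Or.inr (Or.inr ?_)
      cases z <;> exact ⟨by simp [zl], by simp [zl]⟩
    · exact Or.inr (Or.inl h)
  have h := signal (τ := τ) (b0 := b0) pre post hpre hpost b c (zl z) (.rcv z 0)
      (by cases z <;> simp [out2, zl]) (by cases z <;> simp [next2, zl])
  by_cases hc : c = 0
  · subst hc
    rw [if_pos rfl] at h
    refine ⟨_, h, hp, ?_⟩
    simp; omega
  · rw [if_neg hc] at h
    obtain ⟨W, h1, h2, h3⟩ := signals (τ := τ) (b0 := b0) pre post hpre hpost b z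
      ((c : ℕ) - 1) (c - 1) 0 (Fin.val_sub_one_of_ne_zero hc)
    have e : (0 : Fin (C.m + 1)) + (c - 1) + 1 = c := by abel
    rw [e] at h1
    refine ⟨_, h.trans h1, ?_, ?_⟩
    · intro x hx
      rcases List.mem_append.1 hx with hx | hx
      · exact hp x hx
      · exact h2 x hx
    · have hc' : 1 ≤ (c : ℕ) := by
        rcases Nat.eq_zero_or_pos (c : ℕ) with h0 | h0
        · exact absurd (Fin.ext h0) hc
        · exact h0
      simp only [List.length_append, List.length_cons, h3]
      obtain ⟨k, hk⟩ : ∃ k, (c : ℕ) = k + 1 := ⟨(c : ℕ) - 1, by omega⟩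
      rw [hk]
      simp only [Nat.add_sub_cancel]
      ring

/-- The queue word after a message has passed it. -/
def mid (q : Q) {m : ℕ} : Bool → List S → List (L2 Q S m)
  | _, [] => []
  | true, y :: v => .base (.F q y) :: pl v
  | false, y :: v => .base (.P y) :: pl v

theorem mid_false (q : Q) {m : ℕ} (v : List S) : (mid q false v : List (L2 Q S m)) = pl v := by
  cases v <;> rfl

theorem mid_length (q : Q) {m : ℕ} (f : Bool) (v : List S) :
    (mid q f v : List (L2 Q S m)).length = v.length := by
  cases v <;> cases f <;> simp [mid]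

theorem mid_inert (q : Q) {m : ℕ} (f : Bool) (v : List S) :
    ∀ x ∈ (mid q f v : List (L2 Q S m)), Inert x := by
  intro x hx
  cases v with
  | nil => simp [mid] at hx
  | cons y v =>
    cases f <;>
    · simp only [mid, pl, List.mem_cons, List.mem_map] at hx
      rcases hx with rfl | ⟨z, -, rfl⟩ <;> exact Or.inl ⟨_, rfl⟩

theorem passive_of_inert {m : ℕ} {x : L2 Q S m} (h : Inert x) : Passive x := by
  rcases h with ⟨b, rfl⟩ | rfl <;> exact ⟨by simp, by simp⟩

/-- The message travels to the end of the block. -/
theorem travel (q : τ.Q) (x : S) : ∀ (ys : List S) (pre : List (L2 τ.Q S C.m))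
    (_ : ∀ x ∈ pre, Inert x) (b : Bs τ.Q S) (f : Bool), ∃ W,
      Rd (sim τ C b0) (false, pre ++ .snd b (C.enc (q, x, f)) :: (pl ys ++ [.E])) W
        (false, pre ++ .base b :: (mid (τ.next q x) f ys ++
          [.rcv none (C.enc (q, x, f && ys.isEmpty))])) ∧
      (∀ x ∈ W, Passive x) ∧
      (ys.length + 1) * (pre.length + ys.length + 2) ≤ W.length ∧
      W.length ≤ (C.m + 2) * (ys.length + 1) * (pre.length + ys.length + 2) := by
  intro ys
  induction ys with
  | nil =>
    intro pre hpre b f
    obtain ⟨W, h1, h2, h3⟩ := transfer (τ := τ) (b0 := b0) pre [] hpre (by simp) b none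
      (C.enc (q, x, f))
    refine ⟨W, ?_, ?_, ?_, ?_⟩
    · simpa [pl, mid, zl] using h1
    · intro y hy
      rcases h2 y hy with h | h | h
      · exact passive_of_inert (hpre y h)
      · simp at h
      · exact h
    · rw [h3]
      simp only [List.length_nil]
      nlinarith
    · rw [h3]
      have := (C.enc (q, x, f)).isLt
      simp only [List.length_nil]
      have h5 : (C.enc (q, x, f) : ℕ) + 1 ≤ C.m + 2 := by omega
      calc ((C.enc (q, x, f) : ℕ) + 1) * (pre.length + 0 + 2)
          ≤ (C.m + 2) * (pre.length + 0 + 2) := Nat.mul_le_mul_right _ h5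
        _ = _ := by ring
  | cons y ys ih =>
    intro pre hpre b f
    have hpost : ∀ x ∈ (pl ys ++ [L2.E] : List (L2 τ.Q S C.m)), Inert x := by
      intro z hz
      rcases List.mem_append.1 hz with hz | hz
      · exact inert_pl ys z hz
      · simp only [List.mem_singleton] at hz
        exact Or.inr hz
    obtain ⟨W, h1, h2, h3⟩ := transfer (τ := τ) (b0 := b0) pre (pl ys ++ [.E]) hpre hpost b
      (some y) (C.enc (q, x, f))
    -- the receiving cell becomes a sender
    obtain ⟨g, hg⟩ : ∃ g : Bs τ.Q S, g = (if f then .F (τ.next q x) y else .P y) := ⟨_, rfl⟩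
    have h4 := pass3 (τ := τ) (C := C) (b0 := b0) (pre := pre ++ [.base b])
      (mid := [.rcv (some y) (C.enc (q, x, f))]) (post := pl ys ++ [.E])
      (out := [.snd g (C.enc (q, x, false))]) (b := false)
      (by
        intro z hz
        rcases List.mem_append.1 hz with hz | hz
        · exact hpre z hz
        · simp only [List.mem_singleton] at hz
          exact Or.inl ⟨_, hz⟩)
      (by simp) hpost
      (by
        have e : (sim τ C b0).out false (.rcv (some y) (C.enc (q, x, f))) =
            [.snd g (C.enc (q, x, false))] := by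
          simp only [sim, out2, C.dec_enc, hg]
        simp only [Dgsm.run, e]
        rfl)
      (by simp only [stAfter]; rfl)
    obtain ⟨W', h5, h6, h7, h8⟩ := ih (pre ++ [.base b])
      (by
        intro z hz
        rcases List.mem_append.1 hz with hz | hz
        · exact hpre z hz
        · simp only [List.mem_singleton] at hz
          exact Or.inl ⟨_, hz⟩) g false
    have e1 : pre ++ [L2.base b] ++ [L2.rcv (some y) (C.enc (q, x, f))] ++ (pl ys ++ [.E]) =
        pre ++ L2.base b :: L2.rcv (some y) (C.enc (q, x, f)) :: (pl ys ++ [.E]) := by simp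
    have e2 : pre ++ [L2.base b] ++ [L2.snd g (C.enc (q, x, false))] ++ (pl ys ++ [.E]) =
        pre ++ [L2.base b] ++ L2.snd g (C.enc (q, x, false)) :: (pl ys ++ [.E]) := by simp
    rw [e1, e2] at h4
    have h9 := (h1.trans h4).trans h5
    refine ⟨W ++ (pre ++ L2.base b :: L2.rcv (some y) (C.enc (q, x, f)) :: (pl ys ++ [L2.E])) ++ W',
      ?_, ?_, ?_, ?_⟩
    · have e3 : pre ++ L2.snd b (C.enc (q, x, f)) :: (pl (y :: ys) ++ [.E]) =
          pre ++ L2.snd b (C.enc (q, x, f)) :: zl (some y) :: (pl ys ++ [.E]) := by
        simp [pl, zl]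
      have e4 : pre ++ L2.base b :: (mid (τ.next q x) f (y :: ys) ++
          [L2.rcv none (C.enc (q, x, f && (y :: ys).isEmpty))]) =
          pre ++ [L2.base b] ++ L2.base g :: (mid (τ.next q x) false ys ++
          [L2.rcv none (C.enc (q, x, false && ys.isEmpty))]) := by
        rw [mid_false, hg]
        cases f <;> simp [mid]
      rw [e3, e4]
      exact h9
    · intro z hz
      simp only [List.mem_append] at hz
      rcases hz with (hz | hz) | hz
      · rcases h2 z hz with h | h | h
        · exact passive_of_inert (hpre z h)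
        · exact passive_of_inert (hpost z h)
        · exact h
      · simp only [List.mem_cons] at hz
        rcases hz with h | h | h | h
        · exact passive_of_inert (hpre z h)
        · rw [h]; exact ⟨by simp, by simp⟩
        · rw [h]; exact ⟨by simp, by simp⟩
        · exact passive_of_inert (hpost z h)
      · exact h6 z hz
    · simp only [List.length_append, List.length_cons, List.length_nil, pl_length] at h3 h7 h8 ⊢
      nlinarith
    · simp only [List.length_append, List.length_cons, List.length_nil, pl_length] at h3 h7 h8 ⊢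
      have hlt := (C.enc (q, x, f)).isLt
      have h10 : ((C.enc (q, x, f) : ℕ) + 1) * (pre.length + (ys.length + (0 + 1)) + 2) ≤
          (C.m + 1) * (pre.length + (ys.length + (0 + 1)) + 2) :=
        Nat.mul_le_mul_right _ (by omega)
      rw [h3]
      nlinarith

/-- A letter of the simulated dgsm is read. -/
theorem macroStep (q : τ.Q) (x x' : S) (ys ys' : List S)
    (hy : ys ++ τ.out q x = x' :: ys') (hu : τ.out q x ≠ []) : ∃ W,
      Rd (sim τ C b0) (false, .act q x :: (pl ys ++ [.E])) (.act q x :: W)
        (false, .act (τ.next q x) x' :: (pl ys' ++ [.E])) ∧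
      (∀ x ∈ W, Passive x) ∧
      (ys.length + 1) ^ 2 ≤ W.length ∧
      W.length ≤ (C.m + 8) * (ys'.length + 2) ^ 2 := by
  have hinE : ∀ x ∈ (pl ys ++ [L2.E] : List (L2 τ.Q S C.m)), Inert x := by
    intro z hz
    rcases List.mem_append.1 hz with hz | hz
    · exact inert_pl ys z hz
    · simp only [List.mem_singleton] at hz
      exact Or.inr hz
  -- the front starts to send
  have h0 := pass3 (τ := τ) (C := C) (b0 := b0) (pre := []) (mid := [.act q x])
    (post := pl ys ++ [.E]) (out := [.snd .D (C.enc (q, x, true))]) (b := false) (by simp)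
    (by simp) hinE
    (by
      have e : (sim τ C b0).out false (.act q x) = [.snd .D (C.enc (q, x, true))] := by
        simp only [sim, out2]
      simp only [Dgsm.run, e]
      rfl)
    (by simp only [stAfter]; rfl)
  obtain ⟨W1, h1, p1, l1, u1⟩ := travel (τ := τ) (C := C) (b0 := b0) q x ys [] (by simp) .D true
  -- the end of the block
  obtain ⟨X, hX⟩ : ∃ X : List (L2 τ.Q S C.m), X = if ys.isEmpty then
      (match τ.out q x with
        | [] => [.E]
        | y :: v => .base (.F (τ.next q x) y) :: pl v)
      else pl (τ.out q x) := ⟨_, rfl⟩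
  have h2 := pass3 (τ := τ) (C := C) (b0 := b0)
    (pre := .base .D :: mid (τ.next q x) true ys)
    (mid := [.rcv none (C.enc (q, x, true && ys.isEmpty))]) (post := []) (out := X) (b := true)
    (by
      intro z hz
      rcases List.mem_cons.1 hz with hz | hz
      · exact Or.inl ⟨_, hz⟩
      · exact mid_inert _ _ _ z hz)
    (by simp) (by simp)
    (by
      have e : (sim τ C b0).out false (.rcv none (C.enc (q, x, true && ys.isEmpty))) = X := by
        simp only [sim, out2, C.dec_enc, hX, Bool.true_and]
      simp only [Dgsm.run, e]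
      simp)
    (by simp only [stAfter]; rfl)
  -- the next block
  have hW : (L2.base .D :: mid (τ.next q x) true ys) ++ X ++ [] =
      .base .D :: .base (.F (τ.next q x) x') :: (pl ys' : List (L2 τ.Q S C.m)) := by
    cases ys with
    | nil =>
      rw [List.nil_append] at hy
      rw [hX, hy]
      simp [mid]
    | cons y v =>
      rw [List.cons_append, List.cons.injEq] at hy
      obtain ⟨rfl, hy⟩ := hy
      rw [hX, ← hy, pl_append]
      simp [mid]
  rw [hW] at h2
  have h3 := Rd.full (sim τ C b0) true
    (.base .D :: .base (.F (τ.next q x) x') :: (pl ys' : List (L2 τ.Q S C.m)))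
  have e3 : (sim τ C b0).run true
      (.base .D :: .base (.F (τ.next q x) x') :: (pl ys' : List (L2 τ.Q S C.m))) =
      .E :: .act (τ.next q x) x' :: pl ys' := by
    have a1 : (sim τ C b0).out true (.base .D) = [.E] := rfl
    have a2 : (sim τ C b0).next true (.base .D) = true := rfl
    have a3 : (sim τ C b0).out true (.base (.F (τ.next q x) x')) = [.act (τ.next q x) x'] := rfl
    have a4 : (sim τ C b0).next true (.base (.F (τ.next q x) x')) = false := rfl
    simp only [Dgsm.run, a1, a2, a3, a4, (run_inert (inert_pl ys')).1]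
    rfl
  have e4 : stAfter (sim τ C b0) true
      (.base .D :: .base (.F (τ.next q x) x') :: (pl ys' : List (L2 τ.Q S C.m))) = false := by
    have a2 : (sim τ C b0).next true (.base .D) = true := rfl
    have a4 : (sim τ C b0).next true (.base (.F (τ.next q x) x')) = false := rfl
    simp only [stAfter, a2, a4, (run_inert (inert_pl ys')).2]
  rw [e3, e4] at h3
  have h4 := Rd.pass (sim τ C b0) false [.E]
    (.act (τ.next q x) x' :: (pl ys' : List (L2 τ.Q S C.m)))
  have e5 : (sim τ C b0).run false [L2.E] = [.E] := rfl
  have e6 : stAfter (sim τ C b0) false [L2.E] = false := rfl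
  rw [e5, e6] at h4
  have e7 : ([] : List (L2 τ.Q S C.m)) ++ L2.base .D :: (mid (τ.next q x) true ys ++
      [L2.rcv none (C.enc (q, x, true && ys.isEmpty))]) =
      (L2.base .D :: mid (τ.next q x) true ys) ++
      [L2.rcv none (C.enc (q, x, true && ys.isEmpty))] ++ [] := by simp
  have e8 : ([] : List (L2 τ.Q S C.m)) ++ L2.snd .D (C.enc (q, x, true)) :: (pl ys ++ [.E]) =
      [] ++ [L2.snd .D (C.enc (q, x, true))] ++ (pl ys ++ [.E]) := by simp
  rw [e7, e8] at h1
  have h5 := (((h0.trans h1).trans h2).trans h3).trans h4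
  have hlen : ys.length + (τ.out q x).length = ys'.length + 1 := by
    have := congrArg List.length hy
    simpa using this
  have hul := List.length_pos_of_ne_nil hu
  refine ⟨(pl ys ++ [.E]) ++ W1 ++ ((L2.base .D :: mid (τ.next q x) true ys) ++
      [L2.rcv none (C.enc (q, x, true && ys.isEmpty))] ++ []) ++
      (.base .D :: .base (.F (τ.next q x) x') :: pl ys') ++ [.E], ?_, ?_, ?_, ?_⟩
  · have e9 : L2.act q x :: ((pl ys ++ [.E]) ++ W1 ++ ((L2.base .D :: mid (τ.next q x) true ys) ++
      [L2.rcv none (C.enc (q, x, true && ys.isEmpty))] ++ []) ++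
      (.base .D :: .base (.F (τ.next q x) x') :: pl ys') ++ [.E]) =
      [] ++ [L2.act q x] ++ (pl ys ++ [.E]) ++ W1 ++ ((L2.base .D :: mid (τ.next q x) true ys) ++
      [L2.rcv none (C.enc (q, x, true && ys.isEmpty))] ++ []) ++
      (.base .D :: .base (.F (τ.next q x) x') :: pl ys') ++ [.E] := by simp
    rw [e9]
    have e10 : (L2.act q x :: (pl ys ++ [.E]) : List (L2 τ.Q S C.m)) =
      [] ++ [L2.act q x] ++ (pl ys ++ [.E]) := by simp
    rw [e10]
    have e11 : (L2.act (τ.next q x) x' :: (pl ys' ++ [.E]) : List (L2 τ.Q S C.m)) =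
      (.act (τ.next q x) x' :: pl ys') ++ [.E] := by simp
    rw [e11]
    exact h5
  · intro z hz
    simp only [List.mem_append, List.mem_cons, List.not_mem_nil, or_false] at hz
    rcases hz with (((((h | h) | h) | ((h | h) | h)) | (h | h | h)) | h)
    · exact passive_of_inert (inert_pl ys z h)
    · rw [h]; exact ⟨by simp, by simp⟩
    · exact p1 z h
    · rw [h]; exact ⟨by simp, by simp⟩
    · exact passive_of_inert (mid_inert _ _ _ z h)
    · rw [h]; exact ⟨by simp, by simp⟩
    · rw [h]; exact ⟨by simp, by simp⟩
    · rw [h]; exact ⟨by simp, by simp⟩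
    · exact passive_of_inert (inert_pl ys' z h)
    · rw [h]; exact ⟨by simp, by simp⟩
  · simp only [List.length_append, List.length_cons, List.length_nil, pl_length] at l1 u1 ⊢
    nlinarith
  · simp only [List.length_append, List.length_cons, List.length_nil, pl_length, mid_length]
      at l1 u1 ⊢
    have h6 : ys.length ≤ ys'.length := by omega
    have h7 : (C.m + 2) * (ys.length + 1) * (0 + ys.length + 2) ≤
        (C.m + 2) * (ys'.length + 2) ^ 2 := by
      rw [mul_assoc]
      apply Nat.mul_le_mul_left
      nlinarith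
    nlinarith

end

end Pool.Agent.W614.Dg
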