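import Mathlib

/-!
Growth of the queue: a nondecreasing sequence whose doubling from `L / 2` to `L` takes time at
least `L ^ e / C`.
-/

set_option autoImplicit false

namespace Pool.Agent.W614.Dg

/-- Reaching the value `L` from a value at most `(L - C) / 2` takes time at least `L ^ e / C`. -/
def Slow (e : ℕ) (l : ℕ → ℕ) : Prop :=
  ∃ C : ℕ, 1 ≤ C ∧ ∀ k k', k ≤ k' → 2 * l k + C ≤ l k' → l k' ^ e ≤ C * (k' - k)

theorem slow_one {l : ℕ → ℕ} {K : ℕ} (h : ∀ k, l (k + 1) ≤ l k + K) : Slow 1 l := by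
  have h1 : ∀ k j, l (k + j) ≤ l k + K * j := by
    intro k j
    induction j with
    | zero => simp
    | succ j ih =>
      have := h (k + j)
      rw [← add_assoc]
      have e : K * (j + 1) = K * j + K := by ring
      omega
  refine ⟨2 * K + 1, by omega, ?_⟩
  intro k k' hk h2
  have h3 := h1 k (k' - k)
  rw [Nat.add_sub_cancel' hk] at h3
  rw [pow_one]
  have h4 : l k' ≤ 2 * (K * (k' - k)) := by omega
  have h5 : (2 * K + 1) * (k' - k) = 2 * (K * (k' - k)) + (k' - k) := by ring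
  omega

/-- The simulation slows down. -/
theorem slow_step {e : ℕ} (he : 1 ≤ e) {l l2 R : ℕ → ℕ} {K : ℕ} (hl : Monotone l)
    (hl1 : ∀ k, l (k + 1) ≤ l k + K) (hR0 : R 0 = 0)
    (hR : ∀ k, R k + l k ^ 2 + 1 ≤ R (k + 1))
    (h1 : ∀ k r, R k ≤ r → r ≤ R (k + 1) → l k + 1 ≤ l2 r ∧ l2 r ≤ l (k + 1) + 1)
    (hs : Slow e l) : Slow (e + 2) l2 := by
  obtain ⟨C, hC1, hC⟩ := hs
  have hRm : StrictMono R := strictMono_nat_of_lt_succ (fun k => by have := hR k; omega)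
  have hRid : ∀ k, k ≤ R k := hRm.id_le
  have hfind : ∀ r, ∃ k, R k ≤ r ∧ r < R (k + 1) := by
    intro r
    have hex : ∃ k, r < R (k + 1) := ⟨r, by have := hRid (r + 1); omega⟩
    classical
    refine ⟨Nat.find hex, ?_, Nat.find_spec hex⟩
    rcases Nat.eq_zero_or_pos (Nat.find hex) with h | h
    · rw [h, hR0]; exact Nat.zero_le _
    · have := Nat.find_min hex (m := Nat.find hex - 1) (by omega)
      rw [Nat.sub_add_cancel h] at this
      omega
  have hsum : ∀ i j, i ≤ j → R i + (j - i) * (l i ^ 2) ≤ R j := by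
    intro i j hij
    induction j, hij using Nat.le_induction with
    | base => simp
    | succ j hij ih =>
      have h2 := hR j
      have h3 : l i ^ 2 ≤ l j ^ 2 := Nat.pow_le_pow_left (hl hij) 2
      have h4 : (j + 1 - i) * (l i ^ 2) = (j - i) * (l i ^ 2) + l i ^ 2 := by
        rw [Nat.sub_add_comm hij]; ring
      omega
  refine ⟨2 ^ (e + 2) * (32 * C) + 3 * C + 2 * K + 4, by omega, ?_⟩
  intro r r' hr h2
  obtain ⟨k, hk1, hk2⟩ := hfind r
  obtain ⟨k', hk1', hk2'⟩ := hfind r'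
  have hkk : k ≤ k' := by
    by_contra hc
    have : R (k' + 1) ≤ R k := hRm.monotone (by omega)
    omega
  have h3 := (h1 k r hk1 hk2.le).1
  have h4 := (h1 k' r' hk1' hk2'.le).2
  have h5 := hl1 k'
  -- the last index with small value
  have hex : 2 * l k + C ≤ l k' := by
    have : 0 ≤ 2 ^ (e + 2) * (32 * C) := Nat.zero_le _
    omega
  classical
  obtain ⟨i0, hi0, hi1, hi2⟩ : ∃ i : ℕ, k ≤ i ∧ i ≤ k' ∧ 2 * l i + C ≤ l k' ∧
      ∀ j, i < j → j ≤ k' → l k' < 2 * l j + C := by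
    have hne : ((Finset.Icc k k').filter (fun i => 2 * l i + C ≤ l k')).Nonempty :=
      ⟨k, by simp [hkk, hex]⟩
    refine ⟨((Finset.Icc k k').filter (fun i => 2 * l i + C ≤ l k')).max' hne, ?_, ?_, ?_, ?_⟩
    · have := Finset.max'_mem _ hne
      simp only [Finset.mem_filter, Finset.mem_Icc] at this
      exact this.1.1
    · have := Finset.max'_mem _ hne
      simp only [Finset.mem_filter, Finset.mem_Icc] at this
      exact this.1.2
    · have := Finset.max'_mem _ hne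
      simp only [Finset.mem_filter, Finset.mem_Icc] at this
      exact this.2
    · intro j hj hj'
      by_contra hc
      have h6 : j ∈ (Finset.Icc k k').filter (fun i => 2 * l i + C ≤ l k') := by
        have := Finset.max'_mem _ hne
        simp only [Finset.mem_filter, Finset.mem_Icc] at this
        simp only [Finset.mem_filter, Finset.mem_Icc]
        omega
      have := Finset.le_max' _ j h6
      omega
  obtain ⟨hi2, hi3⟩ := hi2
  have h6 := hC i0 k' hi1 hi2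
  -- size of `l k'`
  have hbig : 3 * C + K + 1 ≤ l k' := by
    have : 0 ≤ 2 ^ (e + 2) * (32 * C) := Nat.zero_le _
    omega
  have hpow : l k' ≤ l k' ^ e := Nat.le_self_pow (by omega) _
  have hd : 3 ≤ k' - i0 := by
    by_contra hc
    have h7 : C * (k' - i0) ≤ C * 2 := Nat.mul_le_mul_left _ (by omega)
    omega
  -- time between
  have h8 := hi3 (i0 + 1) (by omega) (by omega)
  have h9 : l k' ≤ 4 * l (i0 + 1) := by omega
  have h10 := hsum (i0 + 1) k' (by omega)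
  have h11 : R (k + 1) ≤ R (i0 + 1) := hRm.monotone (by omega)
  have h12 : (k' - (i0 + 1)) * (l (i0 + 1) ^ 2) ≤ r' - r := by omega
  have h13 : k' - i0 ≤ 2 * (k' - (i0 + 1)) := by omega
  have h14 : l k' ^ 2 ≤ 16 * l (i0 + 1) ^ 2 := by
    calc l k' ^ 2 ≤ (4 * l (i0 + 1)) ^ 2 := Nat.pow_le_pow_left h9 2
      _ = _ := by ring
  have h15 : l k' ^ (e + 2) ≤ 32 * C * (r' - r) := by
    calc l k' ^ (e + 2) = l k' ^ e * l k' ^ 2 := pow_add _ _ _
      _ ≤ (C * (k' - i0)) * (16 * l (i0 + 1) ^ 2) := Nat.mul_le_mul h6 h14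
      _ ≤ (C * (2 * (k' - (i0 + 1)))) * (16 * l (i0 + 1) ^ 2) :=
          Nat.mul_le_mul_right _ (Nat.mul_le_mul_left _ h13)
      _ = 32 * C * ((k' - (i0 + 1)) * l (i0 + 1) ^ 2) := by ring
      _ ≤ 32 * C * (r' - r) := Nat.mul_le_mul_left _ h12
  have h16 : l2 r' ≤ 2 * l k' := by omega
  calc l2 r' ^ (e + 2) ≤ (2 * l k') ^ (e + 2) := Nat.pow_le_pow_left h16 _
    _ = 2 ^ (e + 2) * l k' ^ (e + 2) := by rw [mul_pow]
    _ ≤ 2 ^ (e + 2) * (32 * C * (r' - r)) := Nat.mul_le_mul_left _ h15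
    _ = (2 ^ (e + 2) * (32 * C)) * (r' - r) := by ring
    _ ≤ _ := Nat.mul_le_mul_right _ (by omega)

/-- The growth. -/
theorem growth {e : ℕ} (he : 2 ≤ e) {l G : ℕ → ℕ} (hs : Slow e l) (_hl : Monotone l)
    (hG0 : 1 ≤ G 0) (hG : ∀ n, G (n + 1) = G n + l (G n - 1)) :
    ∃ A : ℝ, 0 < A ∧ ∀ n : ℕ, 1 ≤ n → (G n : ℝ) ≤ A * (n : ℝ) ^ ((e : ℝ) / ((e : ℝ) - 1)) := by
  obtain ⟨C, hC1, hC⟩ := hs
  have he' : (2 : ℝ) ≤ e := by exact_mod_cast he
  obtain ⟨D, hD⟩ : ∃ D : ℕ, D = C + (2 * l 0 + C) ^ e := ⟨_, rfl⟩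
  have h1 : ∀ k, l k ^ e ≤ D * (k + 1) := by
    intro k
    rcases le_or_gt (2 * l 0 + C) (l k) with h | h
    · have := hC 0 k (Nat.zero_le _) h
      calc l k ^ e ≤ C * (k - 0) := this
        _ ≤ D * (k + 1) := Nat.mul_le_mul (by rw [hD]; omega) (by omega)
    · calc l k ^ e ≤ (2 * l 0 + C) ^ e := Nat.pow_le_pow_left h.le _
        _ ≤ D * 1 := by rw [hD]; omega
        _ ≤ D * (k + 1) := Nat.mul_le_mul_left _ (by omega)
  have hGpos : ∀ n, 1 ≤ G n := by
    intro n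
    induction n with
    | zero => exact hG0
    | succ n ih => rw [hG]; omega
  obtain ⟨θ, hθ⟩ : ∃ θ : ℝ, θ = ((e : ℝ) - 1) / e := ⟨_, rfl⟩
  have hθ0 : 0 < θ := by rw [hθ]; apply div_pos <;> linarith
  have hθ1 : θ ≤ 1 := by rw [hθ, div_le_one (by linarith)]; linarith
  obtain ⟨E, hE⟩ : ∃ E : ℝ, E = (D : ℝ) ^ ((1 : ℝ) / e) := ⟨_, rfl⟩
  have hE0 : 0 ≤ E := by rw [hE]; positivity
  have h2 : ∀ n, (l (G n - 1) : ℝ) ≤ E * (G n : ℝ) ^ ((1 : ℝ) / e) := by
    intro n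
    have h3 := h1 (G n - 1)
    rw [Nat.sub_add_cancel (hGpos n)] at h3
    have h4 : ((l (G n - 1) : ℝ)) ^ e ≤ D * G n := by exact_mod_cast h3
    have h5 : (l (G n - 1) : ℝ) = ((l (G n - 1) : ℝ) ^ e) ^ ((1 : ℝ) / e) := by
      rw [one_div, Real.pow_rpow_inv_natCast (by positivity) (by omega)]
    rw [h5, hE, ← Real.mul_rpow (by positivity) (by positivity)]
    exact Real.rpow_le_rpow (by positivity) h4 (by positivity)
  have h6 : ∀ n, (G (n + 1) : ℝ) ^ θ ≤ (G n : ℝ) ^ θ + E := by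
    intro n
    have hg : (1 : ℝ) ≤ G n := by exact_mod_cast hGpos n
    have hg0 : (0 : ℝ) < G n := by linarith
    have h7 : (G (n + 1) : ℝ) ≤ G n * (1 + E * (G n : ℝ) ^ (-θ)) := by
      rw [hG, Nat.cast_add]
      have h8 : (G n : ℝ) * (G n : ℝ) ^ (-θ) = (G n : ℝ) ^ ((1 : ℝ) / e) := by
        have h9 : (G n : ℝ) * (G n : ℝ) ^ (-θ) = (G n : ℝ) ^ (1 + -θ) := by
          rw [Real.rpow_add hg0, Real.rpow_one]
        rw [h9]
        congr 1
        rw [hθ]
        field_simp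
        ring
      have := h2 n
      calc (G n : ℝ) + l (G n - 1) ≤ G n + E * (G n : ℝ) ^ ((1 : ℝ) / e) := by linarith
        _ = G n + E * ((G n : ℝ) * (G n : ℝ) ^ (-θ)) := by rw [h8]
        _ = _ := by ring
    have hx : 0 ≤ E * (G n : ℝ) ^ (-θ) := by positivity
    calc (G (n + 1) : ℝ) ^ θ ≤ (G n * (1 + E * (G n : ℝ) ^ (-θ))) ^ θ :=
          Real.rpow_le_rpow (by positivity) h7 hθ0.le
      _ = (G n : ℝ) ^ θ * (1 + E * (G n : ℝ) ^ (-θ)) ^ θ :=
          Real.mul_rpow (by positivity) (by positivity)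
      _ ≤ (G n : ℝ) ^ θ * (1 + θ * (E * (G n : ℝ) ^ (-θ))) := by
          apply mul_le_mul_of_nonneg_left _ (by positivity)
          exact rpow_one_add_le_one_add_mul_self (by linarith) hθ0.le hθ1
      _ = (G n : ℝ) ^ θ + θ * E * ((G n : ℝ) ^ θ * (G n : ℝ) ^ (-θ)) := by ring
      _ = (G n : ℝ) ^ θ + θ * E := by
          rw [← Real.rpow_add hg0, add_neg_cancel, Real.rpow_zero, mul_one]
      _ ≤ (G n : ℝ) ^ θ + E := by nlinarith
  have h7 : ∀ n : ℕ, (G n : ℝ) ^ θ ≤ (G 0 : ℝ) ^ θ + E * n := by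
    intro n
    induction n with
    | zero => simp
    | succ n ih =>
      have := h6 n
      push_cast
      linarith
  obtain ⟨A, hA⟩ : ∃ A : ℝ, A = (G 0 : ℝ) ^ θ + E := ⟨_, rfl⟩
  have hg0 : (1 : ℝ) ≤ G 0 := by exact_mod_cast hG0
  have hA0 : 0 < A := by rw [hA]; positivity
  refine ⟨A ^ ((e : ℝ) / ((e : ℝ) - 1)), by positivity, ?_⟩
  intro n hn
  have hn' : (1 : ℝ) ≤ n := by exact_mod_cast hn
  have h8 : (G n : ℝ) ^ θ ≤ A * n := by
    have := h7 n
    have h9 : 0 < (G 0 : ℝ) ^ θ := by positivity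
    rw [hA]
    nlinarith
  have h9 : (G n : ℝ) = ((G n : ℝ) ^ θ) ^ ((e : ℝ) / ((e : ℝ) - 1)) := by
    rw [← Real.rpow_mul (by positivity), hθ]
    have : ((e : ℝ) - 1) / e * (e / ((e : ℝ) - 1)) = 1 := by
      have h10 : (e : ℝ) - 1 ≠ 0 := by linarith
      have h11 : (e : ℝ) ≠ 0 := by linarith
      field_simp
    rw [this, Real.rpow_one]
  rw [h9, ← Real.mul_rpow hA0.le (by positivity)]
  apply Real.rpow_le_rpow (by positivity) h8
  apply div_nonneg <;> linarith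

end Pool.Agent.W614.Dg
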