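import Pool.Agent.W614.Dg.Final

/-!
Transfer of space classes to two-state dgsm's with growth `O(n ^ (1 + ε))`.
-/

set_option autoImplicit false

namespace Pool.Agent.W614.Dg

open Pool.Agent.H584R2.Dg

/-- `log m = O(log n)` for `m` polynomially bounded in `n`. -/
theorem log_poly (B d : ℕ) : ∃ C : ℝ, 0 ≤ C ∧ ∀ n m : ℕ, 1 ≤ n → m ≤ B * n ^ d →
    Real.log m + 1 ≤ C * (Real.log n + 1) := by
  have hB : 0 ≤ Real.log (B + 1) := Real.log_nonneg (by
    have : (0 : ℝ) ≤ B := Nat.cast_nonneg B
    linarith)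
  refine ⟨Real.log (B + 1) + d + 1, by positivity, ?_⟩
  intro n m hn hm
  have hn' : (1 : ℝ) ≤ n := by exact_mod_cast hn
  have h0 : 0 ≤ Real.log n := Real.log_nonneg hn'
  have h1 : Real.log m ≤ Real.log (B + 1) + d * Real.log n := by
    rcases Nat.eq_zero_or_pos m with rfl | hm0
    · simp only [Nat.cast_zero, Real.log_zero]
      positivity
    · have h2 : (m : ℝ) ≤ (B + 1) * (n : ℝ) ^ d := by
        calc (m : ℝ) ≤ ((B * n ^ d : ℕ) : ℝ) := by exact_mod_cast hm
          _ = (B : ℝ) * (n : ℝ) ^ d := by push_cast; ring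
          _ ≤ _ := by
            apply mul_le_mul_of_nonneg_right _ (by positivity)
            linarith
      calc Real.log m ≤ Real.log ((B + 1) * (n : ℝ) ^ d) :=
            Real.log_le_log (by exact_mod_cast hm0) h2
        _ = _ := by
            rw [Real.log_mul (by positivity) (by positivity), Real.log_pow]
  have h3 : (0 : ℝ) ≤ d := Nat.cast_nonneg d
  nlinarith [mul_nonneg hB h0]

/-- The functions `(log n + 1) ^ j` are invariant under polynomial changes of the argument. -/
theorem polylog_poly (j B d : ℕ) : ∃ C : ℝ, ∀ n m : ℕ, 1 ≤ n → m ≤ B * n ^ d →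
    (Real.log m + 1) ^ j ≤ C * (Real.log n + 1) ^ j := by
  obtain ⟨C, hC0, hC⟩ := log_poly B d
  refine ⟨C ^ j, ?_⟩
  intro n m hn hm
  rw [← mul_pow]
  apply pow_le_pow_left₀
  · have : 0 ≤ Real.log m := by
      rcases Nat.eq_zero_or_pos m with rfl | hm0
      · simp
      · exact Real.log_nonneg (by exact_mod_cast hm0)
    linarith
  · exact hC n m hn hm

theorem log_nonneg' (n : ℕ) : (0 : ℝ) ≤ Real.log n + 1 := by
  have : 0 ≤ Real.log n := by
    rcases Nat.eq_zero_or_pos n with rfl | hm0
    · simp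
    · exact Real.log_nonneg (by exact_mod_cast hm0)
  linarith

end Pool.Agent.W614.Dg
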