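import Pool.Agent.W614.Dg.Sim
import Pool.Agent.W614.Dg.Mach
import Pool.Agent.W614.Dg.Slow

/-!
One round of the simulation.
-/

set_option autoImplicit false

namespace Pool.Agent.W614.Dg

open Pool.Agent.H584R2.Dg

/-- The length of the queue of the iteration after reading `r + 1` letters. -/
def len {S : Type} (τ : Dgsm S) (a : S) (r : ℕ) : ℕ :=
  (qconf τ (τ.next τ.init a, (τ.out τ.init a).tail) r).2.length

theorem exists_cod (Q S : Type) [Finite Q] [Finite S] [Nonempty Q] [Nonempty S] :
    Nonempty (Cod Q S) := by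
  obtain ⟨n, ⟨e⟩⟩ := Finite.exists_equiv_fin (Q × S × Bool)
  cases n with
  | zero => exact (e (Classical.arbitrary _)).elim0
  | succ m => exact ⟨⟨m, e, e.symm, e.symm_apply_apply⟩⟩

theorem exists_bound {S : Type} [Finite S] (τ : Dgsm S) : ∃ B, ∀ q x, (τ.out q x).length ≤ B := by
  have := τ.finQ
  obtain ⟨B, hB⟩ := (Set.finite_range (fun z : τ.Q × S => (τ.out z.1 z.2).length)).bddAbove
  exact ⟨B, fun q x => hB ⟨(q, x), rfl⟩⟩

theorem len_succ_le {S : Type} {τ : Dgsm S} {K : ℕ} (hK : ∀ q x, (τ.out q x).length ≤ K)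
    (c : τ.Q × List S) (r : ℕ) :
    (qconf τ c (r + 1)).2.length ≤ (qconf τ c r).2.length + K := by
  rw [qconf_succ]
  rcases h : qconf τ c r with ⟨q, v⟩
  cases v with
  | nil => simp [qstep]
  | cons x v =>
    have := hK q x
    simp only [qstep, List.length_append, List.length_cons]
    omega

/-- Which letters are decoded. -/
def dcd {Q S : Type} {m : ℕ} (a : S) : L2 Q S m → Option S
  | .start => some a
  | .act _ y => some y
  | _ => none

theorem dcd_passive {Q S : Type} {m : ℕ} (a : S) {x : L2 Q S m} (h : Passive x) :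
    dcd a x = none := by
  cases x with
  | start => exact absurd rfl h.1
  | act q y => exact absurd rfl (h.2 q y)
  | base b => rfl
  | E => rfl
  | snd b i => rfl
  | rcv z j => rfl

theorem sim_nonErasing {S : Type} {τ : Dgsm S} (hne : τ.NonErasing) (C : Cod τ.Q S)
    (b0 : List (L2 τ.Q S C.m)) : (sim τ C b0).NonErasing := by
  intro b x
  have hpl : ∀ q y, (pl (τ.out q y) : List (L2 τ.Q S C.m)) ≠ [] := by
    intro q y h
    have := congrArg List.length h
    rw [pl_length, List.length_nil] at this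
    exact hne q y (List.length_eq_zero_iff.1 this)
  show out2 τ.next τ.out C b0 b x ≠ []
  cases b with
  | false =>
    cases x with
    | start => simp [out2]
    | base b => simp [out2]
    | E => simp [out2]
    | act q y => simp [out2]
    | snd b i => simp only [out2]; split_ifs <;> simp
    | rcv z j =>
      cases z with
      | some y => simp [out2]
      | none =>
        simp only [out2]
        split_ifs
        · split <;> simp
        · exact hpl _ _
  | true =>
    cases x with
    | start => simp [out2]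
    | base b => cases b <;> simp [out2]
    | E => simp [out2]
    | act q y => simp [out2]
    | snd b i => simp [out2]
    | rcv z j => simp [out2]

instance finL2 {Q S : Type} [Finite Q] [Finite S] (m : ℕ) : Finite (L2 Q S m) := by
  have hB : Finite (Bs Q S) := by
    let f : Bs Q S → Option (S ⊕ (Q × S)) := fun b => match b with
      | .D => none
      | .P y => some (Sum.inl y)
      | .F q y => some (Sum.inr (q, y))
    apply Finite.of_injective f
    intro b b' h
    cases b <;> cases b' <;> simp_all [f]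
  let f : L2 Q S m → (Unit ⊕ Bs Q S) ⊕ ((Unit ⊕ (Q × S)) ⊕ ((Bs Q S × Fin (m + 1)) ⊕
      (Option S × Fin (m + 1)))) := fun b => match b with
    | .start => Sum.inl (Sum.inl ())
    | .base b => Sum.inl (Sum.inr b)
    | .E => Sum.inr (Sum.inl (Sum.inl ()))
    | .act q y => Sum.inr (Sum.inl (Sum.inr (q, y)))
    | .snd b i => Sum.inr (Sum.inr (Sum.inl (b, i)))
    | .rcv z j => Sum.inr (Sum.inr (Sum.inr (z, j)))
  apply Finite.of_injective f
  intro b b' h
  cases b <;> cases b' <;> simp_all [f]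

/-- One round: simulation by a dgsm with two states. -/
theorem step {S : Type} [Finite S] (τ : Dgsm S) (hne : τ.NonErasing) (a : S) (w : ℕ → S)
    (hw : τ.IsLimit a w) {e : ℕ} (he : 1 ≤ e) (hs : Slow e (len τ a)) :
    ∃ (S' : Type) (_ : Finite S') (τ' : Dgsm S') (a' : S') (w' : ℕ → S') (h : S' → Option S)
      (P : ℕ → ℕ) (B : ℕ), Nat.card τ'.Q = 2 ∧ τ'.NonErasing ∧ τ'.IsLimit a' w' ∧
      Slow (e + 2) (len τ' a') ∧ Dec h w' w P ∧ ∀ k, P k + 1 ≤ B * (k + 1) ^ 3 := by
  have := τ.finQ
  have : Nonempty τ.Q := ⟨τ.init⟩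
  have : Nonempty S := ⟨a⟩
  obtain ⟨C⟩ := exists_cod τ.Q S
  obtain ⟨K, hK⟩ := exists_bound τ
  obtain ⟨u, hout, hu, h0, ht⟩ := trace_of_isLimit hne hw
  -- the queue of `τ`
  obtain ⟨c, hc⟩ : ∃ c : ℕ → τ.Q × List S, c = qconf τ (τ.next τ.init a, u) := ⟨_, rfl⟩
  have hlen : ∀ k, len τ a k = (c k).2.length := by
    intro k
    rw [hc]
    unfold len
    rw [hout]
    rfl
  obtain ⟨ys, hys⟩ : ∃ ys : ℕ → List S, ys = fun k => (c k).2.tail := ⟨_, rfl⟩
  have hcons : ∀ k, (c k).2 = w (k + 1) :: ys k := by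
    intro k
    have := ht k
    rw [← hc] at this
    rw [hys]
    simp only
    rcases h : (c k).2 with _ | ⟨x, v⟩
    · rw [h] at this; simp at this
    · rw [h] at this
      simp only [List.head?_cons, Option.some.injEq] at this
      rw [this]
      rfl
  have hlen2 : ∀ k, len τ a k = (ys k).length + 1 := by
    intro k
    rw [hlen, hcons]
    rfl
  have hstep : ∀ k, (c (k + 1)).1 = τ.next (c k).1 (w (k + 1)) ∧
      ys k ++ τ.out (c k).1 (w (k + 1)) = w (k + 1 + 1) :: ys (k + 1) := by
    intro k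
    have h1 : c (k + 1) = qstep τ (c k) := by rw [hc, qconf_succ]
    have h2 : c k = ((c k).1, w (k + 1) :: ys k) := by rw [← hcons]
    have h3 : c (k + 1) = (τ.next (c k).1 (w (k + 1)), ys k ++ τ.out (c k).1 (w (k + 1))) := by
      rw [h1]
      conv_lhs => rw [h2]
      rfl
    refine ⟨by rw [h3], ?_⟩
    rw [← hcons (k + 1), h3]
  -- the blocks
  obtain ⟨blk, hblk⟩ : ∃ blk : ℕ → List (L2 τ.Q S C.m),
      blk = fun k => .act (c k).1 (w (k + 1)) :: (pl (ys k) ++ [.E]) := ⟨_, rfl⟩
  have hmac : ∀ k, ∃ W, Rd (sim τ C (blk 0)) (false, blk k)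
      (.act (c k).1 (w (k + 1)) :: W) (false, blk (k + 1)) ∧ (∀ x ∈ W, Passive x) ∧
      ((ys k).length + 1) ^ 2 ≤ W.length ∧
      W.length ≤ (C.m + 8) * ((ys (k + 1)).length + 2) ^ 2 := by
    intro k
    obtain ⟨h1, h2⟩ := hstep k
    have := macroStep (τ := τ) (C := C) (b0 := blk 0) (c k).1 (w (k + 1)) (w (k + 1 + 1)) (ys k)
      (ys (k + 1)) h2 (hne _ _)
    rw [← h1] at this
    simp only [hblk] at this ⊢
    exact this
  choose W hW1 hW2 hW3 hW4 using hmac
  obtain ⟨R, hR⟩ : ∃ R : ℕ → ℕ, R = fun k => ∑ j ∈ Finset.range k, ((W j).length + 1) := ⟨_, rfl⟩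
  have hR0 : R 0 = 0 := by rw [hR]; simp
  have hRs : ∀ k, R (k + 1) = R k + ((W k).length + 1) := by
    intro k
    rw [hR]
    simp only [Finset.sum_range_succ]
  have hconf : ∀ k, qconf (sim τ C (blk 0)) (false, blk 0) (R k) = (false, blk k) := by
    intro k
    induction k with
    | zero => rw [hR0]; rfl
    | succ k ih =>
      rw [hRs, qconf_add, ih]
      exact (hW1 k).1
  have hne2 := sim_nonErasing hne C (blk 0)
  have hb0 : blk 0 ≠ [] := by simp [hblk]
  -- the word
  obtain ⟨w', hw'⟩ : ∃ w' : ℕ → L2 τ.Q S C.m, w' = fun r => match r with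
    | 0 => .start
    | r + 1 => ((qconf (sim τ C (blk 0)) (false, blk 0) r).2.head?).getD .start := ⟨_, rfl⟩
  have htr : IsTrace (sim τ C (blk 0)) (false, blk 0) (fun r => w' (r + 1)) := by
    intro r
    have h1 := qconf_mono hne2 (false, blk 0) (Nat.zero_le r)
    rw [qconf_zero] at h1
    have h2 := List.length_pos_of_ne_nil hb0
    simp only [hw']
    rcases h : (qconf (sim τ C (blk 0)) (false, blk 0) r).2 with _ | ⟨x, v⟩
    · rw [h] at h1
      simp only [List.length_nil] at h1
      omega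
    · simp
  have hlim := isLimit_of_trace (τ := sim τ C (blk 0)) hne2 (a := .start) (u := blk 0) rfl hb0
    (w := w') (by rw [hw']) htr
  have hhead : ∀ k i (hi : i < (W k).length + 1),
      w' (R k + i + 1) = (L2.act (c k).1 (w (k + 1)) :: W k)[i]'(by simpa using hi) := by
    intro k i hi
    have h1 := htr (R k + i)
    have h2 := (hW1 k).2 i (by simpa using hi)
    rw [qconf_add, hconf] at h1
    exact (Option.some.inj (h2.symm.trans h1)).symm
  -- lengths
  have hK' : ∀ k, len τ a (k + 1) ≤ len τ a k + K := by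
    intro k
    rw [hlen, hlen, hc]
    exact len_succ_le hK _ _
  have hl2 : ∀ r, len (sim τ C (blk 0)) .start r =
      (qconf (sim τ C (blk 0)) (false, blk 0) r).2.length := fun r => rfl
  have hblen : ∀ k, (blk k).length = len τ a k + 1 := by
    intro k
    rw [hlen2]
    simp [hblk]
  have hslow := slow_step (e := e) he (l := len τ a) (l2 := len (sim τ C (blk 0)) .start) (R := R)
    (K := K)
    (by
      intro k k' hk
      rw [hlen, hlen, hc]
      exact qconf_mono hne _ hk)
    hK' hR0
    (by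
      intro k
      rw [hRs, hlen2]
      have := hW3 k
      omega)
    (by
      intro k r h1 h2
      rw [hl2]
      have h3 := qconf_mono hne2 (false, blk 0) h1
      have h4 := qconf_mono hne2 (false, blk 0) h2
      rw [hconf] at h3 h4
      simp only [hblen] at h3 h4
      exact ⟨h3, h4⟩)
    hs
  -- polynomial bound of `R`
  have hlb : ∀ k, len τ a k ≤ (len τ a 0 + K) * (k + 1) := by
    intro k
    induction k with
    | zero => simp
    | succ k ih =>
      have := hK' k
      have e1 : (len τ a 0 + K) * (k + 1 + 1) = (len τ a 0 + K) * (k + 1) + (len τ a 0 + K) := by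
        ring
      omega
  obtain ⟨B1, hB1⟩ : ∃ B1 : ℕ, B1 = (C.m + 8) * (2 * (len τ a 0 + K + 1)) ^ 2 + 1 := ⟨_, rfl⟩
  have hRb : ∀ k, R k ≤ B1 * k ^ 3 := by
    intro k
    induction k with
    | zero => simp [hR0]
    | succ k ih =>
      rw [hRs]
      have h1 := hW4 k
      have h2 := hlen2 (k + 1)
      have h3 := hlb (k + 1)
      have h4 : (ys (k + 1)).length + 2 ≤ 2 * (len τ a 0 + K + 1) * (k + 1) := by
        nlinarith
      have h5 : ((ys (k + 1)).length + 2) ^ 2 ≤ (2 * (len τ a 0 + K + 1)) ^ 2 * (k + 1) ^ 2 := by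
        rw [← mul_pow]
        exact Nat.pow_le_pow_left h4 2
      have h6 : (W k).length ≤ (C.m + 8) * ((2 * (len τ a 0 + K + 1)) ^ 2 * (k + 1) ^ 2) :=
        h1.trans (Nat.mul_le_mul_left _ h5)
      have h7 : (W k).length + 1 ≤ B1 * (k + 1) ^ 2 := by
        rw [hB1, add_mul]
        have h8 : 1 ≤ (k + 1) ^ 2 := Nat.one_le_pow _ _ (by omega)
        calc (W k).length + 1 ≤ (C.m + 8) * ((2 * (len τ a 0 + K + 1)) ^ 2 * (k + 1) ^ 2) + 1 := by
              omega
          _ ≤ _ := by
              rw [mul_assoc]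
              omega
      calc R k + ((W k).length + 1) ≤ B1 * k ^ 3 + B1 * (k + 1) ^ 2 := Nat.add_le_add ih h7
        _ = B1 * (k ^ 3 + (k + 1) ^ 2) := by ring
        _ ≤ B1 * (k + 1) ^ 3 := Nat.mul_le_mul_left _ (by nlinarith)
  -- positions
  obtain ⟨P, hP⟩ : ∃ P : ℕ → ℕ, P = fun k => match k with
    | 0 => 0
    | k + 1 => R k + 1 := ⟨_, rfl⟩
  have hP0 : P 0 = 0 := by rw [hP]
  have hPs : ∀ k, P (k + 1) = R k + 1 := by intro k; rw [hP]
  refine ⟨L2 τ.Q S C.m, inferInstance, sim τ C (blk 0), .start, w', dcd a, P, B1 + 2, ?_, hne2,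
    hlim.1, hslow, ⟨?_, hP0, ?_, ?_⟩, ?_⟩
  · show Nat.card Bool = 2
    simp
  · apply strictMono_nat_of_lt_succ
    intro k
    cases k with
    | zero => rw [hP0, hPs]; omega
    | succ k => rw [hPs, hPs, hRs]; omega
  · intro k
    cases k with
    | zero =>
      rw [hP0, hw', h0]
      rfl
    | succ k =>
      rw [hPs]
      have := hhead k 0 (by omega)
      rw [add_zero] at this
      rw [this]
      rfl
  · intro k r h1 h2
    cases k with
    | zero =>
      rw [hP0] at h1
      rw [hPs, hR0] at h2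
      omega
    | succ k =>
      rw [hPs] at h1
      rw [hPs, hRs] at h2
      obtain ⟨i, hi⟩ : ∃ i, r = R k + (i + 1) + 1 := ⟨r - R k - 2, by omega⟩
      have h3 := hhead k (i + 1) (by omega)
      rw [hi, h3]
      apply dcd_passive
      apply hW2 k
      simp
  · intro k
    cases k with
    | zero => rw [hP0]; simp
    | succ k =>
      rw [hPs]
      have h1 := hRb k
      have h2 : k ^ 3 ≤ (k + 1 + 1) ^ 3 := Nat.pow_le_pow_left (by omega) 3
      have h3 : 1 ≤ (k + 1 + 1) ^ 3 := Nat.one_le_pow _ _ (by omega)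
      have h4 := Nat.mul_le_mul_left B1 h2
      rw [add_mul]
      omega

end Pool.Agent.W614.Dg
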